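import Pool.Agent.Work.MP_9eee85_co_hr.Contra
import Pool.Agent.Work.MP_9eee85_co_hr.Example

/-!
MP_9eee85_co, Eur and Huh's question on volume polynomials of matroid morphisms: a realizable
morphism whose basis generating polynomial is not the volume polynomial of nef classes in any
algebra with the Kähler package.
-/

namespace Pool.Agent.Results.MP_9eee85_co.KahlerObstruction

open Module MvPolynomial
open EurHuhHR hiding X

universe u v w

/-- The family `v` of vectors spans `V`, and its linear matroid is `M` (on the whole type). -/
def Realizes (K : Type u) [Field K] {α : Type v} (M : Matroid α) {V : Type u} [AddCommGroup V]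
    [Module K V] (v : α → V) : Prop :=
  M.E = Set.univ ∧ Submodule.span K (Set.range v) = ⊤ ∧
    ∀ I : Set α, M.Indep I ↔ LinearIndepOn K v I

/-- The triple `M`, `M'`, `φ` is realizable over `K`. -/
def RealizableTriple (K : Type u) [Field K] {F : Type v} {F' : Type w} (M : Matroid F)
    (M' : Matroid F') (φ : F → F') : Prop :=
  ∃ (V V' : Type u) (_ : AddCommGroup V) (_ : Module K V) (_ : AddCommGroup V')
    (_ : Module K V') (v : F → V) (v' : F' → V') (Φ : V →ₗ[K] V'),
    Realizes K M v ∧ Realizes K M' v' ∧ ∀ s, Φ (v s) = v' (φ s)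

/-- `T` is a basis of `φ`: it lies in a basis of `M` and `φ(T)` contains a basis of `M'`. -/
def IsMorphismBasis {F : Type v} {F' : Type w} (M : Matroid F) (M' : Matroid F') (φ : F → F')
    (T : Finset F) : Prop :=
  (∃ B, M.IsBase B ∧ (T : Set F) ⊆ B) ∧ ∃ B', M'.IsBase B' ∧ B' ⊆ φ '' (T : Set F)

open Classical in
/-- The homogeneous basis generating polynomial of `φ`; the variable `none` is `w_0`. -/
noncomputable def basisPoly {F : Type v} {F' : Type w} [Fintype F] (M : Matroid F)
    (M' : Matroid F') (φ : F → F') : MvPolynomial (Option F) ℚ :=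
  ∑ T ∈ (Finset.univ : Finset (Finset F)).filter (fun T => IsMorphismBasis M M' φ T),
    X none ^ (Fintype.card F - T.card) * ∏ f ∈ T, X (some f)

/-- `p` is the volume polynomial of nef classes `H i` in an algebra with the Kähler package in
degrees at most two: `p(w) = (∑ w i H i)^d` for all real `w`. For a projective manifold `X` of
dimension `d` over the complex numbers, the algebra of real `(k,k)`-classes with the space of
`(1,1)`-classes, the degree map and the cone of ample (or Kähler) classes is such an algebra. -/
def IsKahlerVolumePolynomial {σ : Type v} [Fintype σ] (p : MvPolynomial σ ℚ) : Prop :=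
  ∃ (d : ℕ) (A : Type u) (_ : CommRing A) (_ : Algebra ℝ A) (P : KahlerPackage d A) (H : σ → A),
    (∀ i, P.Nef (H i)) ∧
    ∀ w : σ → ℝ, P.deg ((∑ i, w i • H i) ^ d) = MvPolynomial.aeval w p

lemma isMorphismBasis_iff (T : Finset (Fin 5)) :
    IsMorphismBasis F5 U23 phi T ↔ 2 ≤ (T.image phi).card := by
  rw [← U23_base_in]
  constructor
  · rintro ⟨-, B', hB', hsub⟩
    exact ⟨B', hB', by simpa using hsub⟩
  · rintro ⟨B', hB', hsub⟩
    exact ⟨⟨Set.univ, (F5_isBase _).mpr rfl, Set.subset_univ _⟩, B', hB', by simpa using hsub⟩

lemma aeval_basisPoly (w : Option (Fin 5) → ℝ) :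
    MvPolynomial.aeval w (basisPoly F5 U23 phi) =
    ∑ T ∈ (Finset.univ : Finset (Finset (Fin 5))).filter (fun T => 2 ≤ (T.image phi).card),
      w none ^ (5 - T.card) * ∏ f ∈ T, w (some f) := by
  classical
  rw [basisPoly, map_sum]
  refine Finset.sum_congr ?_ fun T _ => ?_
  · ext T
    simp only [Finset.mem_filter, isMorphismBasis_iff]
  · simp

lemma realizable (K : Type u) [Field K] : RealizableTriple K F5 U23 phi := by
  refine ⟨Fin 5 → K, Fin 2 → K, inferInstance, inferInstance, inferInstance, inferInstance,
    Pi.basisFun K (Fin 5), ![![1, 0], ![0, 1], ![1, 1]],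
    (Pi.basisFun K (Fin 5)).constr K (fun s => (![![1, 0], ![0, 1], ![1, 1]] :
      Fin 3 → Fin 2 → K) (phi s)), ⟨rfl, (Pi.basisFun K (Fin 5)).span_eq, fun I => ?_⟩,
      ⟨rfl, ?_, fun I => ?_⟩, fun s => ?_⟩
  · constructor
    · intro _
      exact ((Pi.basisFun K (Fin 5)).linearIndependent).linearIndepOn I
    · intro _
      rw [F5, Matroid.freeOn_indep_iff]
      exact Set.subset_univ I
  · rw [eq_top_iff]
    rintro x -
    have hx : x = x 0 • (![1, 0] : Fin 2 → K) + x 1 • (![0, 1] : Fin 2 → K) := by
      ext i
      fin_cases i <;> simp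
    rw [hx]
    refine add_mem (Submodule.smul_mem _ _ (Submodule.subset_span ⟨0, rfl⟩))
      (Submodule.smul_mem _ _ (Submodule.subset_span ⟨1, rfl⟩))
  · rw [U23_indep]
    constructor
    · intro hI
      have hex : ∃ k, k ∉ I := by
        by_contra hcon
        push Not at hcon
        have : I = Set.univ := Set.eq_univ_of_forall hcon
        rw [this] at hI
        simp [Set.ncard_univ] at hI
      obtain ⟨k, hk⟩ := hex
      have h01 : LinearIndepOn K (![![1, 0], ![0, 1], ![1, 1]] : Fin 3 → Fin 2 → K) {0, 1} := by
        rw [LinearIndepOn.pair_iff _ (by decide)]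
        intro s t hst
        have h0 := congrFun hst 0
        have h1 := congrFun hst 1
        simp at h0 h1
        exact ⟨h0, h1⟩
      have h02 : LinearIndepOn K (![![1, 0], ![0, 1], ![1, 1]] : Fin 3 → Fin 2 → K) {0, 2} := by
        rw [LinearIndepOn.pair_iff _ (by decide)]
        intro s t hst
        have h0 := congrFun hst 0
        have h1 := congrFun hst 1
        simp at h0 h1
        subst h1
        simpa using h0
      have h12 : LinearIndepOn K (![![1, 0], ![0, 1], ![1, 1]] : Fin 3 → Fin 2 → K) {1, 2} := by
        rw [LinearIndepOn.pair_iff _ (by decide)]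
        intro s t hst
        have h0 := congrFun hst 0
        have h1 := congrFun hst 1
        simp at h0 h1
        subst h0
        simpa using h1
      fin_cases k
      · refine h12.mono fun x hx => ?_
        fin_cases x
        · exact absurd hx hk
        · simp
        · simp
      · refine h02.mono fun x hx => ?_
        fin_cases x
        · simp
        · exact absurd hx hk
        · simp
      · refine h01.mono fun x hx => ?_
        fin_cases x
        · simp
        · simp
        · exact absurd hx hk
    · intro hI
      have h1 := hI.encard_le_toENat_rank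
      have h2 : Cardinal.toENat (Module.rank K (Fin 2 → K)) = 2 := by
        rw [rank_fin_fun]; simp
      rw [h2, ← (Set.toFinite I).cast_ncard_eq] at h1
      exact_mod_cast h1
  · exact (Pi.basisFun K (Fin 5)).constr_basis K _ s

/-- There is a morphism of matroids, realizable over every field, whose homogeneous basis
generating polynomial is not the volume polynomial of nef classes in any real algebra with the
Kähler package in degrees at most two. -/
theorem result : ∃ (M : Matroid (Fin 5)) (M' : Matroid (Fin 3)) (φ : Fin 5 → Fin 3),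
    (∀ (K : Type v) [Field K], RealizableTriple K M M' φ) ∧
    ¬ IsKahlerVolumePolynomial.{u} (basisPoly M M' φ) := by
  refine ⟨F5, U23, phi, fun K _ => realizable K, ?_⟩
  rintro ⟨d, A, _, _, P, H, hnef, hvol⟩
  simp only [aeval_basisPoly, sum_explicit] at hvol
  -- the dimension is five
  have hd : d = 5 := by
    have h1 := hvol (fun _ => 1)
    have h2 := hvol (fun _ => 2)
    have e : (∑ i : Option (Fin 5), (2 : ℝ) • H i) = (2 : ℝ) • ∑ i, (1 : ℝ) • H i := by
      simp [Finset.smul_sum]
    rw [e, smul_pow, map_smul, smul_eq_mul, h1] at h2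
    norm_num at h2
    have h3 : (2 : ℝ) ^ d = 2 ^ 5 := by linarith
    exact pow_right_injective₀ (by norm_num) (by norm_num) h3
  subst hd
  refine no_volume (P := P) (g := Fin.cons (H none) (fun i => H (some i))) ?_ ?_
  · intro i
    refine Fin.cases ?_ (fun j => ?_) i
    · exact hnef none
    · exact hnef (some j)
  · intro w
    have h := hvol (fun o => (Option.elim o (w 0) (fun i => w i.succ) : ℤ))
    have e : EurHuhHR.X (Fin.cons (H none) (fun i => H (some i)) : Fin 6 → A) w =
        ∑ o : Option (Fin 5), ((Option.elim o (w 0) (fun i => w i.succ) : ℤ) : ℝ) • H o := by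
      rw [EurHuhHR.X, Fin.sum_univ_succ, Fintype.sum_option]
      simp [Int.cast_smul_eq_zsmul]
    rw [e, h]
    simp only [Option.elim, pZ]
    push_cast
    rfl

end Pool.Agent.Results.MP_9eee85_co.KahlerObstruction
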