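import Pool.Agent.Work.MP_9eee85_co.Final

/-!
MP_9eee85_co, Eur and Huh's question on volume polynomials of matroid morphisms, for all
realizable morphisms `φ : M → M'` whose target has rank zero.
-/

namespace Pool.Agent.Results.MP_9eee85_co.RankZeroTarget

open Module Filter Topology MvPolynomial

universe u v w

/-- The family `v` of vectors spans `V`, and its linear matroid is `M` (on the whole type). -/
def Realizes (K : Type u) [Field K] {α : Type v} (M : Matroid α) {V : Type u} [AddCommGroup V]
    [Module K V] (v : α → V) : Prop :=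
  M.E = Set.univ ∧ Submodule.span K (Set.range v) = ⊤ ∧
    ∀ I : Set α, M.Indep I ↔ LinearIndepOn K v I

/-- The triple `M`, `M'`, `φ` is realizable over `K`. -/
def RealizableTriple (K : Type u) [Field K] {F : Type v} {F' : Type w} (M : Matroid F)
    (M' : Matroid F') (φ : F → F') : Prop :=
  ∃ (V V' : Type u) (_ : AddCommGroup V) (_ : Module K V) (_ : AddCommGroup V')
    (_ : Module K V') (v : F → V) (v' : F' → V') (Φ : V →ₗ[K] V'),
    Realizes K M v ∧ Realizes K M' v' ∧ ∀ s, Φ (v s) = v' (φ s)

/-- `T` is a basis of `φ`: it lies in a basis of `M` and `φ(T)` contains a basis of `M'`. -/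
def IsMorphismBasis {F : Type v} {F' : Type w} (M : Matroid F) (M' : Matroid F') (φ : F → F')
    (T : Finset F) : Prop :=
  (∃ B, M.IsBase B ∧ (T : Set F) ⊆ B) ∧ ∃ B', M'.IsBase B' ∧ B' ⊆ φ '' (T : Set F)

open Classical in
/-- The homogeneous basis generating polynomial of `φ`; the variable `none` is `w_0`. -/
noncomputable def basisPoly {F : Type v} {F' : Type w} [Fintype F] (M : Matroid F)
    (M' : Matroid F') (φ : F → F') : MvPolynomial (Option F) ℚ :=
  ∑ T ∈ (Finset.univ : Finset (Finset F)).filter (fun T => IsMorphismBasis M M' φ T),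
    X none ^ (Fintype.card F - T.card) * ∏ f ∈ T, X (some f)

/-- Volume polynomials of semiample divisors, in terms of function fields. Here `L` is the
function field of a `d`-dimensional variety over `K` (a finite extension of
`K(x_1, …, x_d)`), the `V i` are finite dimensional subspaces of `L` containing `1`, and
`L` is finite over the subfield `K(V)` they generate. On the normalization in `L` of the
closure of the image of the map given by the `V i`, each `V i` generates a line bundle
`ℒ i`, and with `H i = (1/b) ℒ i` the intersection number `(∑ w i H i)^d` is the limit of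
`d! · [L : K(V)] · dim (∏ V i ^ (m w i)) / (b m)^d`. The condition says that this number is
`p(w)` for all positive integer vectors `w`. -/
def IsSemiampleVolumePolynomial (K : Type u) [Field K] {σ : Type v} [Fintype σ]
    (p : MvPolynomial σ ℚ) : Prop :=
  ∃ (d : ℕ) (L : Type u) (_ : Field L) (_ : Algebra K L)
    (_ : Algebra (FractionRing (MvPolynomial (Fin d) K)) L)
    (_ : IsScalarTower K (FractionRing (MvPolynomial (Fin d) K)) L)
    (_ : FiniteDimensional (FractionRing (MvPolynomial (Fin d) K)) L)
    (V : σ → Submodule K L) (b : ℕ),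
    0 < b ∧ (∀ i, (V i).FG ∧ (1 : L) ∈ V i) ∧
    FiniteDimensional (IntermediateField.adjoin K (⋃ i, (V i : Set L))) L ∧
    ∀ w : σ → ℕ, (∀ i, 0 < w i) →
      Tendsto (fun m : ℕ => ((d.factorial *
        finrank (IntermediateField.adjoin K (⋃ i, (V i : Set L))) L *
        finrank K (∏ i, (V i) ^ (m * w i) : Submodule K L) : ℕ) : ℝ) / ((b * m : ℕ) : ℝ) ^ d)
        atTop (𝓝 ((MvPolynomial.eval (fun i => (w i : ℚ)) p : ℚ) : ℝ))

/-- Let `K` be algebraically closed, `M`, `M'`, `φ` a realizable triple over `K` with `M'` of
rank zero. Then the homogeneous basis generating polynomial of `φ` is a volume polynomial. -/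
theorem result {K : Type u} [Field K] [IsAlgClosed K] {F : Type v} {F' : Type w} [Fintype F]
    [Finite F'] (M : Matroid F) (M' : Matroid F') (φ : F → F')
    (h : RealizableTriple K M M' φ) (h0 : M'.eRank = 0) :
    IsSemiampleVolumePolynomial K (basisPoly M M' φ) := by
  classical
  obtain ⟨V, V', _, _, _, _, vv, v', Φ, ⟨hME, hspan, hind⟩, -, -⟩ := h
  have hinf : Infinite K := IsAlgClosed.instInfinite
  have hbasis : ∀ T : Finset F, IsMorphismBasis M M' φ T ↔
      VolMat.rk K vv T = T.card := by
    intro T
    rw [VolMat.rk_eq_card_iff, ← hind]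
    constructor
    · rintro ⟨⟨B, hB, hTB⟩, -⟩
      exact hB.indep.subset hTB
    · intro hT
      obtain ⟨B, hB, hTB⟩ := hT.exists_isBase_superset
      refine ⟨⟨B, hB, hTB⟩, ?_⟩
      obtain ⟨B', hB'⟩ := M'.exists_isBase
      have : B' = ∅ := by
        rw [← Set.encard_eq_zero, hB'.encard_eq_eRank, h0]
      exact ⟨B', hB', by rw [this]; exact Set.empty_subset _⟩
  obtain ⟨L, iL, iKL, iA, iT, iFD, W, b, hb, hW, hFD, hlim⟩ :=
    VolMat.exists_linear_systems (K := K) vv hspan
  refine ⟨Fintype.card F, L, iL, iKL, iA, iT, iFD, W, b, hb, hW, hFD, ?_⟩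
  intro w hw
  have h1 := hlim w hw
  have heval : MvPolynomial.eval (fun i => (w i : ℚ)) (basisPoly M M' φ) =
      (VolMat.pnat K vv Finset.univ (w none) (fun e => w (some e)) : ℚ) := by
    rw [basisPoly, VolMat.pnat, Finset.powerset_univ, map_sum, Finset.sum_filter]
    push_cast
    refine Finset.sum_congr rfl fun T _ => ?_
    by_cases hT : IsMorphismBasis M M' φ T
    · rw [if_pos hT, if_pos ((hbasis T).mp hT)]
      simp [Finset.card_univ]
    · rw [if_neg hT, if_neg (fun h => hT ((hbasis T).mpr h))]
  rw [heval]
  convert h1 using 2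
  norm_cast

end Pool.Agent.Results.MP_9eee85_co.RankZeroTarget
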